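import Pool.Agent.Helper88.Ric.Stmts

set_option autoImplicit false

open scoped ContDiff Topology MatrixGroups
open Complex

noncomputable section

namespace RicP

theorem GINJ_det (γ : SL(2, ℤ)) : γ 0 0 * γ 1 1 - γ 0 1 * γ 1 0 = 1 := by
  have h := γ.2
  rw [Matrix.det_fin_two] at h
  exact h

theorem GINJ_jj_im (γ : SL(2, ℤ)) (τ : ℂ) : (jj γ τ).im = (γ 1 0 : ℤ) * τ.im := by
  simp [jj]

theorem GINJ_jj_ne (γ : SL(2, ℤ)) (τ : ℂ) (hτ : 0 < τ.im) : jj γ τ ≠ 0 := by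
  intro h
  have h1 : ((γ 1 0 : ℤ) : ℝ) * τ.im = 0 := by
    rw [← GINJ_jj_im, h]; simp
  have h2 : γ 1 0 = 0 := by
    rcases mul_eq_zero.mp h1 with h3 | h3
    · exact_mod_cast h3
    · exact absurd h3 hτ.ne'
  have h3 : γ 1 1 = 0 := by
    have h4 := h
    simp only [jj, h2] at h4
    simpa using h4
  have h5 := GINJ_det γ
  rw [h2, h3] at h5
  simp at h5

/-- numerator -/
def GINJ_nn (γ : SL(2, ℤ)) (τ : ℂ) : ℂ := ((γ 0 0 : ℤ) : ℂ) * τ + ((γ 0 1 : ℤ) : ℂ)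

theorem GINJ_mob (γ : SL(2, ℤ)) (τ : ℂ) : mob γ τ = GINJ_nn γ τ / jj γ τ := rfl

theorem GINJ_im (γ : SL(2, ℤ)) (τ : ℂ) (hτ : 0 < τ.im) :
    (mob γ τ).im * ‖jj γ τ‖ ^ 2 = τ.im := by
  have hj := GINJ_jj_ne γ τ hτ
  have hns : Complex.normSq (jj γ τ) ≠ 0 := by
    simpa [Complex.normSq_eq_zero] using hj
  have hd : ((γ 0 0 : ℤ) : ℝ) * ((γ 1 1 : ℤ) : ℝ) - ((γ 0 1 : ℤ) : ℝ) * ((γ 1 0 : ℤ) : ℝ) = 1 := by
    exact_mod_cast GINJ_det γ
  rw [GINJ_mob, Complex.div_im, ← Complex.normSq_eq_norm_sq]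
  have e : ((GINJ_nn γ τ).im * (jj γ τ).re / Complex.normSq (jj γ τ)
      - (GINJ_nn γ τ).re * (jj γ τ).im / Complex.normSq (jj γ τ)) * Complex.normSq (jj γ τ)
      = (GINJ_nn γ τ).im * (jj γ τ).re - (GINJ_nn γ τ).re * (jj γ τ).im := by
    field_simp
  rw [e]
  have r1 : (GINJ_nn γ τ).im = (γ 0 0 : ℤ) * τ.im := by simp [GINJ_nn]
  have r2 : (GINJ_nn γ τ).re = (γ 0 0 : ℤ) * τ.re + (γ 0 1 : ℤ) := by simp [GINJ_nn]
  have r3 : (jj γ τ).re = (γ 1 0 : ℤ) * τ.re + (γ 1 1 : ℤ) := by simp [jj]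
  rw [r1, r2, r3, GINJ_jj_im]
  linear_combination τ.im * hd

/-- bounded entries from a bounded value of `a τ + b` -/
theorem GINJ_ab (a b : ℤ) (τ : ℂ) (h R K : ℝ) (hh : 0 < h) (hτ : h < τ.im) (hR : ‖τ‖ ≤ R)
    (hK : ‖(a : ℂ) * τ + (b : ℂ)‖ ≤ K) : |(a : ℝ)| ≤ K / h ∧ |(b : ℝ)| ≤ K + K / h * R := by
  have h1 : |(a : ℝ)| * τ.im ≤ K := by
    have h2 : |((a : ℂ) * τ + (b : ℂ)).im| ≤ ‖(a : ℂ) * τ + (b : ℂ)‖ := Complex.abs_im_le_norm _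
    have h3 : ((a : ℂ) * τ + (b : ℂ)).im = (a : ℝ) * τ.im := by simp
    rw [h3, abs_mul, abs_of_pos (hh.trans hτ)] at h2
    exact h2.trans hK
  have h4 : |(a : ℝ)| ≤ K / h := by
    rw [le_div_iff₀ hh]
    exact (mul_le_mul_of_nonneg_left hτ.le (abs_nonneg _)).trans h1
  refine ⟨h4, ?_⟩
  have h5 : ‖(b : ℂ)‖ ≤ ‖(a : ℂ) * τ + (b : ℂ)‖ + ‖(a : ℂ) * τ‖ := by
    have h6 : (b : ℂ) = ((a : ℂ) * τ + (b : ℂ)) - (a : ℂ) * τ := by ring
    calc ‖(b : ℂ)‖ = ‖((a : ℂ) * τ + (b : ℂ)) - (a : ℂ) * τ‖ := by rw [← h6]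
      _ ≤ _ := norm_sub_le _ _
  have h7 : ‖(b : ℂ)‖ = |(b : ℝ)| := by
    rw [Complex.norm_intCast]
  have h8 : ‖(a : ℂ) * τ‖ = |(a : ℝ)| * ‖τ‖ := by
    rw [norm_mul, Complex.norm_intCast]
  rw [h7, h8] at h5
  have h9 : |(a : ℝ)| * ‖τ‖ ≤ K / h * R :=
    mul_le_mul h4 hR (norm_nonneg _) ((abs_nonneg _).trans h4)
  linarith

theorem GINJ_bdd (x1 : ℂ) (hx : 0 < x1.im) : ∃ B : ℤ, ∀ᶠ p : ℂ × ℂ in 𝓝 (x1, x1),
    0 < p.1.im ∧ 0 < p.2.im ∧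
    ∀ γ : SL(2, ℤ), p.2 = mob γ p.1 → ∀ i j, |γ i j| ≤ B := by
  set h := x1.im with hh
  set R := ‖x1‖ + 1 with hR
  have hR0 : 0 < R := by positivity
  set K : ℝ := 2 * R + 2 with hK
  set Bd : ℝ := max (K / (h / 2)) (K + K / (h / 2) * R) with hBd
  refine ⟨⌈Bd⌉, ?_⟩
  have e1 : ∀ᶠ p : ℂ × ℂ in 𝓝 (x1, x1), h / 2 < p.1.im :=
    (Complex.continuous_im.comp continuous_fst).continuousAt.eventually
      (lt_mem_nhds (by show h / 2 < x1.im; rw [← hh]; linarith))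
  have e2 : ∀ᶠ p : ℂ × ℂ in 𝓝 (x1, x1), h / 2 < p.2.im :=
    (Complex.continuous_im.comp continuous_snd).continuousAt.eventually
      (lt_mem_nhds (by show h / 2 < x1.im; rw [← hh]; linarith))
  have e3 : ∀ᶠ p : ℂ × ℂ in 𝓝 (x1, x1), p.1.im < 2 * h :=
    (Complex.continuous_im.comp continuous_fst).continuousAt.eventually
      (gt_mem_nhds (by show x1.im < 2 * h; rw [← hh]; linarith))
  have e4 : ∀ᶠ p : ℂ × ℂ in 𝓝 (x1, x1), ‖p.1‖ < R :=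
    (continuous_norm.comp continuous_fst).continuousAt.eventually
      (gt_mem_nhds (by show ‖x1‖ < R; rw [hR]; linarith))
  have e5 : ∀ᶠ p : ℂ × ℂ in 𝓝 (x1, x1), ‖p.2‖ < R :=
    (continuous_norm.comp continuous_snd).continuousAt.eventually
      (gt_mem_nhds (by show ‖x1‖ < R; rw [hR]; linarith))
  filter_upwards [e1, e2, e3, e4, e5] with p p1 p2 p3 p4 p5
  have i1 : 0 < p.1.im := by linarith
  have i2 : 0 < p.2.im := by linarith
  refine ⟨i1, i2, ?_⟩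
  intro γ hγ
  have hj := GINJ_jj_ne γ p.1 i1
  have him := GINJ_im γ p.1 i1
  rw [← hγ] at him
  have hn2 : ‖jj γ p.1‖ ^ 2 < 4 := by
    by_contra hcon
    push Not at hcon
    have : h / 2 * 4 < p.2.im * ‖jj γ p.1‖ ^ 2 := by
      calc h / 2 * 4 < p.2.im * 4 := by linarith
        _ ≤ p.2.im * ‖jj γ p.1‖ ^ 2 := mul_le_mul_of_nonneg_left hcon i2.le
    linarith
  have hn : ‖jj γ p.1‖ ≤ 2 := by
    by_contra hcon
    push Not at hcon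
    nlinarith
  have hnn : ‖GINJ_nn γ p.1‖ ≤ 2 * R := by
    have h1 : GINJ_nn γ p.1 = p.2 * jj γ p.1 := by
      rw [hγ, GINJ_mob, div_mul_cancel₀ _ hj]
    rw [h1, norm_mul]
    calc ‖p.2‖ * ‖jj γ p.1‖ ≤ R * 2 :=
          mul_le_mul p5.le hn (norm_nonneg _) hR0.le
      _ = 2 * R := by ring
  have a1 := GINJ_ab (γ 1 0) (γ 1 1) p.1 (h / 2) R K (by linarith) p1 p4.le
    (by
      have : ‖jj γ p.1‖ ≤ K := by rw [hK]; linarith
      exact this)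
  have a2 := GINJ_ab (γ 0 0) (γ 0 1) p.1 (h / 2) R K (by linarith) p1 p4.le
    (by
      have : ‖GINJ_nn γ p.1‖ ≤ K := by rw [hK]; linarith
      exact this)
  have key : ∀ n : ℤ, |(n : ℝ)| ≤ Bd → |n| ≤ ⌈Bd⌉ := by
    intro n hn
    have h1 : ((|n| : ℤ) : ℝ) ≤ Bd := by push_cast; exact hn
    exact_mod_cast h1.trans (Int.le_ceil Bd)
  intro i j
  fin_cases i <;> fin_cases j
  · exact key _ (a2.1.trans (le_max_left _ _))
  · exact key _ (a2.2.trans (le_max_right _ _))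
  · exact key _ (a1.1.trans (le_max_left _ _))
  · exact key _ (a1.2.trans (le_max_right _ _))

theorem GINJ_fin (B : ℤ) : {γ : SL(2, ℤ) | ∀ i j, |γ i j| ≤ B}.Finite := by
  have h1 : (Set.Icc (fun (_ _ : Fin 2) => -B) (fun (_ _ : Fin 2) => B)).Finite :=
    Set.finite_Icc _ _
  refine Set.Finite.subset (Set.Finite.preimage (f := fun γ : SL(2, ℤ) =>
    (fun i j => γ i j : Fin 2 → Fin 2 → ℤ)) ?_ h1) ?_
  · intro a _ b _ hab
    apply Matrix.SpecialLinearGroup.ext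
    intro i j
    exact congrFun (congrFun hab i) j
  · intro γ hγ
    constructor
    · intro i j
      exact (abs_le.mp (hγ i j)).1
    · intro i j
      exact (abs_le.mp (hγ i j)).2

theorem GINJ_cont (γ : SL(2, ℤ)) (x1 : ℂ) (hx : 0 < x1.im) :
    ContinuousAt (fun τ => mob γ τ) x1 := by
  have hj : (((γ 1 0 : ℤ) : ℂ) * x1 + ((γ 1 1 : ℤ) : ℂ)) ≠ 0 := GINJ_jj_ne γ x1 hx
  unfold mob
  exact ContinuousAt.div (by fun_prop) (by fun_prop) hj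

theorem st_GINJ (hfree : ST_FREE) : ST_GINJ := by
  intro M N hNOK t q x hx
  obtain ⟨B, hB⟩ := GINJ_bdd x.1 hx
  -- elements not fixing `x.1`
  have hF : ∀ᶠ p : ℂ × ℂ in 𝓝 (x.1, x.1), ∀ γ ∈ {γ : SL(2, ℤ) | ∀ i j, |γ i j| ≤ B},
      mob γ x.1 ≠ x.1 → p.2 ≠ mob γ p.1 := by
    rw [Filter.eventually_all_finite (GINJ_fin B)]
    intro γ _
    by_cases hγ : mob γ x.1 = x.1
    · exact Filter.Eventually.of_forall (fun p h => absurd hγ h)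
    · have hc : ContinuousAt (fun p : ℂ × ℂ => p.2 - mob γ p.1) (x.1, x.1) :=
        continuous_snd.continuousAt.sub
          (ContinuousAt.comp (f := Prod.fst) (g := fun τ => mob γ τ) (x := (x.1, x.1))
            (GINJ_cont γ x.1 hx) continuous_fst.continuousAt)
      have hne : (fun p : ℂ × ℂ => p.2 - mob γ p.1) (x.1, x.1) ≠ 0 := by
        show x.1 - mob γ x.1 ≠ 0
        exact sub_ne_zero.mpr (Ne.symm hγ)
      filter_upwards [hc.eventually_ne hne] with p hp _ h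
      exact hp (by show p.2 - mob γ p.1 = 0; rw [h, sub_self])
  -- small lattice vectors
  have hL : ∃ δ > 0, ∀ τ : ℂ, ‖τ - x.1‖ < x.1.im / 2 → ∀ m n : ℤ,
      ‖(m : ℂ) * τ + (n : ℂ)‖ < δ → m = 0 ∧ n = 0 := by
    refine ⟨min (x.1.im / 2) 1, lt_min (by linarith) one_pos, ?_⟩
    intro τ hτ m n hmn
    have him : x.1.im / 2 < τ.im := by
      have h1 : |(τ - x.1).im| ≤ ‖τ - x.1‖ := Complex.abs_im_le_norm _
      rw [Complex.sub_im] at h1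
      have h2 := (abs_le.mp (h1.trans hτ.le)).1
      have h3 := abs_lt.mp (h1.trans_lt hτ)
      linarith [h3.1]
    have hm : m = 0 := by
      by_contra hm0
      have h1 : (1 : ℝ) ≤ |(m : ℝ)| := by exact_mod_cast Int.one_le_abs hm0
      have h2 : |((m : ℂ) * τ + (n : ℂ)).im| ≤ ‖(m : ℂ) * τ + (n : ℂ)‖ := Complex.abs_im_le_norm _
      have h3 : ((m : ℂ) * τ + (n : ℂ)).im = (m : ℝ) * τ.im := by simp
      rw [h3, abs_mul, abs_of_pos (by linarith : 0 < τ.im)] at h2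
      have h4 : ‖(m : ℂ) * τ + (n : ℂ)‖ < x.1.im / 2 := hmn.trans_le (min_le_left _ _)
      nlinarith
    refine ⟨hm, ?_⟩
    by_contra hn0
    have h1 : (1 : ℝ) ≤ |(n : ℝ)| := by exact_mod_cast Int.one_le_abs hn0
    rw [hm] at hmn
    have h2 : ‖((0 : ℤ) : ℂ) * τ + (n : ℂ)‖ = |(n : ℝ)| := by
      simp
    rw [h2] at hmn
    have h3 := hmn.trans_le (min_le_right _ _)
    linarith
  obtain ⟨δ, hδ, hL⟩ := hL
  have hV : ∀ᶠ p : E × E in 𝓝 (x, x), (0 < p.1.1.im ∧ 0 < p.2.1.im ∧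
      ∀ γ : SL(2, ℤ), p.2.1 = mob γ p.1.1 → ∀ i j, |γ i j| ≤ B) ∧
      (∀ γ ∈ {γ : SL(2, ℤ) | ∀ i j, |γ i j| ≤ B}, mob γ x.1 ≠ x.1 → p.2.1 ≠ mob γ p.1.1) ∧
      ‖p.1.1 - x.1‖ < x.1.im / 2 ∧ ‖p.2.2 - p.1.2‖ < δ := by
    have hc : Filter.Tendsto (fun p : E × E => (p.1.1, p.2.1)) (𝓝 (x, x)) (𝓝 (x.1, x.1)) := by
      have : Continuous (fun p : E × E => (p.1.1, p.2.1)) := by fun_prop
      exact this.continuousAt
    have h3 : ∀ᶠ p : E × E in 𝓝 (x, x), ‖p.1.1 - x.1‖ < x.1.im / 2 := by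
      have : Continuous (fun p : E × E => ‖p.1.1 - x.1‖) := by fun_prop
      exact this.continuousAt.eventually (gt_mem_nhds (by simp; exact hx))
    have h4 : ∀ᶠ p : E × E in 𝓝 (x, x), ‖p.2.2 - p.1.2‖ < δ := by
      have : Continuous (fun p : E × E => ‖p.2.2 - p.1.2‖) := by fun_prop
      exact this.continuousAt.eventually (gt_mem_nhds (by simp; exact hδ))
    filter_upwards [hc.eventually hB, hc.eventually hF, h3, h4] with p a b c d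
    exact ⟨a, b, c, d⟩
  rw [nhds_prod_eq, Filter.eventually_prod_self_iff'] at hV
  obtain ⟨V, hV, hVp⟩ := hV
  refine ⟨V, hV, ?_⟩
  intro y hy z hz hR
  obtain ⟨⟨hy0, hz0, hent⟩, hfix, hyx, hyz⟩ := hVp y hy z hz
  obtain ⟨γ, m, n, hq, hz1, hz2⟩ := hR
  have hN1 : hN M N γ = 1 := by
    have h := hq
    exact (mul_eq_left.mp h.symm)
  have hmem : γ ∈ {γ : SL(2, ℤ) | ∀ i j, |γ i j| ≤ B} := hent γ hz1
  have hfx : mob γ x.1 = x.1 := by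
    by_contra hcon
    exact hfix γ hmem hcon hz1
  have hγ1 : γ = 1 := hfree M N (le_trans (by norm_num) hNOK.2) γ x.1 hx hN1 hfx
  subst hγ1
  have hm1 : mob (1 : SL(2, ℤ)) y.1 = y.1 := by simp [mob]
  have hj1 : jj (1 : SL(2, ℤ)) y.1 = 1 := by simp [jj]
  rw [hm1] at hz1
  rw [hj1, hz1, mul_one] at hz2
  have h5 : z.2 - y.2 = (m : ℂ) * y.1 + (n : ℂ) := by linear_combination hz2
  rw [h5] at hyz
  obtain ⟨hm, hn⟩ := hL y.1 hyx m n hyz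
  rw [hm, hn] at h5
  simp only [Int.cast_zero, zero_mul, add_zero] at h5
  exact Prod.ext hz1.symm (sub_eq_zero.mp h5).symm

end RicP
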