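import Pool.Agent.Helper88.Ric.Stmts

set_option autoImplicit false
set_option linter.unusedSimpArgs false

open scoped ContDiff Topology
open Complex

noncomputable section

namespace RicP

/-- common form of `dz` and `dzb` -/
def LOGJ_D (s : ℂ) (v : E) (f : E → ℂ) (p : E) : ℂ :=
  (fderiv ℝ f p v + s * fderiv ℝ f p (I • v)) / 2

theorem LOGJ_dz (v : E) (f : E → ℂ) : dz v f = LOGJ_D (-I) v f := by
  funext p
  simp only [dz, LOGJ_D]
  ring

theorem LOGJ_dzb (v : E) (f : E → ℂ) : dzb v f = LOGJ_D I v f := rfl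

theorem LOGJ_diffAt {U : Set E} (hU : IsOpen U) {f : E → ℂ} (hf : ContDiffOn ℝ ∞ f U) {q : E}
    (hq : q ∈ U) : DifferentiableAt ℝ f q :=
  (hf.differentiableOn (by simp)).differentiableAt (hU.mem_nhds hq)

theorem LOGJ_congr {U : Set E} (hU : IsOpen U) (s : ℂ) (v : E) {f g : E → ℂ}
    (h : ∀ q ∈ U, f q = g q) : ∀ q ∈ U, LOGJ_D s v f q = LOGJ_D s v g q := by
  intro q hq
  have h1 : f =ᶠ[𝓝 q] g := by
    filter_upwards [hU.mem_nhds hq] with x hx using h x hx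
  simp only [LOGJ_D, h1.fderiv_eq]

theorem LOGJ_mul1 (s : ℂ) (v : E) {f g : E → ℂ} {q : E} (hf : DifferentiableAt ℝ f q)
    (hg : DifferentiableAt ℝ g q) :
    LOGJ_D s v (fun x => f x * g x) q = LOGJ_D s v f q * g q + f q * LOGJ_D s v g q := by
  have h : HasFDerivAt (fun x => f x * g x) (f q • fderiv ℝ g q + g q • fderiv ℝ f q) q :=
    hf.hasFDerivAt.mul hg.hasFDerivAt
  simp only [LOGJ_D, h.fderiv, _root_.add_apply, _root_.smul_apply,
    smul_eq_mul]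
  ring

theorem LOGJ_add1 (s : ℂ) (v : E) {f g : E → ℂ} {q : E} (hf : DifferentiableAt ℝ f q)
    (hg : DifferentiableAt ℝ g q) :
    LOGJ_D s v (fun x => f x + g x) q = LOGJ_D s v f q + LOGJ_D s v g q := by
  have h : HasFDerivAt (fun x => f x + g x) (fderiv ℝ f q + fderiv ℝ g q) q :=
    hf.hasFDerivAt.add hg.hasFDerivAt
  simp only [LOGJ_D, h.fderiv, _root_.add_apply]
  ring

theorem LOGJ_smooth {U : Set E} (hU : IsOpen U) (s : ℂ) (v : E) {f : E → ℂ}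
    (hf : ContDiffOn ℝ ∞ f U) : ContDiffOn ℝ ∞ (LOGJ_D s v f) U := by
  have h1 : ContDiffOn ℝ ∞ (fderiv ℝ f) U := hf.fderiv_of_isOpen hU (by simp)
  have h2 : ∀ w : E, ContDiffOn ℝ ∞ (fun q => fderiv ℝ f q w) U := fun w =>
    h1.clm_apply contDiffOn_const
  have h3 : ContDiffOn ℝ ∞ (fun q => (fderiv ℝ f q v + s * fderiv ℝ f q (I • v)) / 2) U :=
    ((h2 v).add (contDiffOn_const.mul (h2 (I • v)))).div_const 2
  exact h3

theorem LOGJ_mul2 {U : Set E} (hU : IsOpen U) (s s' : ℂ) (v w : E) {f g : E → ℂ}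
    (hf : ContDiffOn ℝ ∞ f U) (hg : ContDiffOn ℝ ∞ g U) {q : E} (hq : q ∈ U) :
    LOGJ_D s v (LOGJ_D s' w (fun x => f x * g x)) q =
      LOGJ_D s v (LOGJ_D s' w f) q * g q + LOGJ_D s' w f q * LOGJ_D s v g q
      + (LOGJ_D s v f q * LOGJ_D s' w g q + f q * LOGJ_D s v (LOGJ_D s' w g) q) := by
  have hf' := LOGJ_smooth hU s' w hf
  have hg' := LOGJ_smooth hU s' w hg
  have h1 : ∀ x ∈ U, LOGJ_D s' w (fun x => f x * g x) x
      = (fun x => LOGJ_D s' w f x * g x + f x * LOGJ_D s' w g x) x := fun x hx =>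
    LOGJ_mul1 s' w (LOGJ_diffAt hU hf hx) (LOGJ_diffAt hU hg hx)
  rw [LOGJ_congr hU s v h1 q hq]
  rw [LOGJ_add1 s v (f := fun x => LOGJ_D s' w f x * g x) (g := fun x => f x * LOGJ_D s' w g x)
    ((LOGJ_diffAt hU hf' hq).mul (LOGJ_diffAt hU hg hq))
    ((LOGJ_diffAt hU hf hq).mul (LOGJ_diffAt hU hg' hq))]
  rw [LOGJ_mul1 s v (LOGJ_diffAt hU hf' hq) (LOGJ_diffAt hU hg hq),
    LOGJ_mul1 s v (LOGJ_diffAt hU hf hq) (LOGJ_diffAt hU hg' hq)]

theorem LOGJ_add2 {U : Set E} (hU : IsOpen U) (s s' : ℂ) (v w : E) {f g : E → ℂ}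
    (hf : ContDiffOn ℝ ∞ f U) (hg : ContDiffOn ℝ ∞ g U) {q : E} (hq : q ∈ U) :
    LOGJ_D s v (LOGJ_D s' w (fun x => f x + g x)) q =
      LOGJ_D s v (LOGJ_D s' w f) q + LOGJ_D s v (LOGJ_D s' w g) q := by
  have hf' := LOGJ_smooth hU s' w hf
  have hg' := LOGJ_smooth hU s' w hg
  have h1 : ∀ x ∈ U, LOGJ_D s' w (fun x => f x + g x) x
      = (fun x => LOGJ_D s' w f x + LOGJ_D s' w g x) x := fun x hx =>
    LOGJ_add1 s' w (LOGJ_diffAt hU hf hx) (LOGJ_diffAt hU hg hx)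
  rw [LOGJ_congr hU s v h1 q hq,
    LOGJ_add1 s v (LOGJ_diffAt hU hf' hq) (LOGJ_diffAt hU hg' hq)]

/-- Leibniz expression -/
def LOGJ_L (K : Fin 6) (a b : Fin 6 → ℂ) : ℂ :=
  match K with
  | 0 => a 0 * b 0
  | 1 => a 1 * b 0 + a 0 * b 1
  | 2 => a 2 * b 0 + a 0 * b 2
  | 3 => a 3 * b 0 + a 1 * b 1 + (a 1 * b 1 + a 0 * b 3)
  | 4 => a 4 * b 0 + a 2 * b 1 + (a 1 * b 2 + a 0 * b 4)
  | 5 => a 5 * b 0 + a 2 * b 2 + (a 2 * b 2 + a 0 * b 5)

theorem LOGJ_dI_mul {U : Set E} (hU : IsOpen U) {f g : E → ℂ} (hf : ContDiffOn ℝ ∞ f U)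
    (hg : ContDiffOn ℝ ∞ g U) {q : E} (hq : q ∈ U) (K : Fin 6) :
    dI K (fun x => f x * g x) q = LOGJ_L K (fun J => dI J f q) (fun J => dI J g q) := by
  have df := LOGJ_diffAt hU hf hq
  have dg := LOGJ_diffAt hU hg hq
  match K with
  | 0 => rfl
  | 1 => simp only [dI, LOGJ_L, LOGJ_dz]; exact LOGJ_mul1 _ _ df dg
  | 2 => simp only [dI, LOGJ_L, LOGJ_dz]; exact LOGJ_mul1 _ _ df dg
  | 3 => simp only [dI, LOGJ_L, LOGJ_dz]; exact LOGJ_mul2 hU _ _ _ _ hf hg hq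
  | 4 => simp only [dI, LOGJ_L, LOGJ_dz]; exact LOGJ_mul2 hU _ _ _ _ hf hg hq
  | 5 => simp only [dI, LOGJ_L, LOGJ_dz]; exact LOGJ_mul2 hU _ _ _ _ hf hg hq

theorem LOGJ_dI_add {U : Set E} (hU : IsOpen U) {f g : E → ℂ} (hf : ContDiffOn ℝ ∞ f U)
    (hg : ContDiffOn ℝ ∞ g U) {q : E} (hq : q ∈ U) (K : Fin 6) :
    dI K (fun x => f x + g x) q = dI K f q + dI K g q := by
  have df := LOGJ_diffAt hU hf hq
  have dg := LOGJ_diffAt hU hg hq
  match K with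
  | 0 => rfl
  | 1 => simp only [dI, LOGJ_dz]; exact LOGJ_add1 _ _ df dg
  | 2 => simp only [dI, LOGJ_dz]; exact LOGJ_add1 _ _ df dg
  | 3 => simp only [dI, LOGJ_dz]; exact LOGJ_add2 hU _ _ _ _ hf hg hq
  | 4 => simp only [dI, LOGJ_dz]; exact LOGJ_add2 hU _ _ _ _ hf hg hq
  | 5 => simp only [dI, LOGJ_dz]; exact LOGJ_add2 hU _ _ _ _ hf hg hq

theorem LOGJ_dI_congr {U : Set E} (hU : IsOpen U) {f g : E → ℂ} (h : ∀ q ∈ U, f q = g q)
    {q : E} (hq : q ∈ U) (K : Fin 6) : dI K f q = dI K g q := by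
  match K with
  | 0 => exact h q hq
  | 1 => simp only [dI, LOGJ_dz]; exact LOGJ_congr hU _ _ h q hq
  | 2 => simp only [dI, LOGJ_dz]; exact LOGJ_congr hU _ _ h q hq
  | 3 => simp only [dI, LOGJ_dz]; exact LOGJ_congr hU _ _ (LOGJ_congr hU _ _ h) q hq
  | 4 => simp only [dI, LOGJ_dz]; exact LOGJ_congr hU _ _ (LOGJ_congr hU _ _ h) q hq
  | 5 => simp only [dI, LOGJ_dz]; exact LOGJ_congr hU _ _ (LOGJ_congr hU _ _ h) q hq

theorem LOGJ_dJ_smooth {U : Set E} (hU : IsOpen U) {f : E → ℂ} (hf : ContDiffOn ℝ ∞ f U)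
    (K : Fin 6) : ContDiffOn ℝ ∞ (dJ K f) U := by
  match K with
  | 0 => exact hf
  | 1 => exact LOGJ_smooth hU _ _ hf
  | 2 => exact LOGJ_smooth hU _ _ hf
  | 3 => exact LOGJ_smooth hU _ _ (LOGJ_smooth hU _ _ hf)
  | 4 => exact LOGJ_smooth hU _ _ (LOGJ_smooth hU _ _ hf)
  | 5 => exact LOGJ_smooth hU _ _ (LOGJ_smooth hU _ _ hf)

/-- the relation `∂ u = u ∂ log u` -/
theorem LOGJ_log {U : Set E} (hU : IsOpen U) (s : ℂ) (v : E) {u : E → ℝ}
    (hpos : ∀ q ∈ U, 0 < u q) (hL : ContDiffOn ℝ ∞ (toC (fun q => Real.log (u q))) U) :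
    ∀ q ∈ U, LOGJ_D s v (toC u) q
      = toC u q * LOGJ_D s v (toC (fun q => Real.log (u q))) q := by
  intro q hq
  have h1 : ∀ x ∈ U, toC u x = (fun x => cexp (toC (fun q => Real.log (u q)) x)) x := by
    intro x hx
    simp only [toC]
    rw [← Complex.ofReal_exp, Real.exp_log (hpos x hx)]
  rw [LOGJ_congr hU s v h1 q hq, h1 q hq]
  have h2 := (LOGJ_diffAt hU hL hq).hasFDerivAt.cexp
  simp only [LOGJ_D, h2.fderiv, _root_.smul_apply, smul_eq_mul]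
  ring

/-- the solution of the linear equations -/
theorem LOGJ_alg (r : Fin 6 → Fin 6 → ℝ) (l : Fin 6 → Fin 6 → ℂ) (h00 : r 0 0 = 1)
    (hs : ∀ K J, r K J = r J K)
    (h1 : ∀ K, (r K 1 : ℂ) = LOGJ_L K (fun J => (r J 0 : ℂ)) (fun J => l J 1))
    (h2 : ∀ K, (r K 2 : ℂ) = LOGJ_L K (fun J => (r J 0 : ℂ)) (fun J => l J 2))
    (h3 : ∀ K, (r K 3 : ℂ) = LOGJ_L K (fun J => (r J 1 : ℂ)) (fun J => l J 1)
      + LOGJ_L K (fun J => (r J 0 : ℂ)) (fun J => l J 3))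
    (h4 : ∀ K, (r K 4 : ℂ) = LOGJ_L K (fun J => (r J 1 : ℂ)) (fun J => l J 2)
      + LOGJ_L K (fun J => (r J 0 : ℂ)) (fun J => l J 4))
    (h5 : ∀ K, (r K 5 : ℂ) = LOGJ_L K (fun J => (r J 2 : ℂ)) (fun J => l J 2)
      + LOGJ_L K (fun J => (r J 0 : ℂ)) (fun J => l J 5)) :
    l 1 1 = ((lg2 r 0 0 : ℝ) : ℂ) ∧ l 1 2 = ((lg2 r 0 1 : ℝ) : ℂ) ∧ l 2 1 = ((lg2 r 0 1 : ℝ) : ℂ) ∧ l 2 2 = ((lg2 r 1 1 : ℝ) : ℂ) ∧ l 3 1 = ((lg3 r 0 0 0 : ℝ) : ℂ) ∧ l 3 2 = ((lg3 r 0 0 1 : ℝ) : ℂ) ∧ l 4 1 = ((lg3 r 0 1 0 : ℝ) : ℂ) ∧ l 4 2 = ((lg3 r 0 1 1 : ℝ) : ℂ) ∧ l 5 1 = ((lg3 r 1 1 0 : ℝ) : ℂ) ∧ l 5 2 = ((lg3 r 1 1 1 : ℝ) : ℂ) ∧ l 3 3 = ((lg4 r 0 0 0 0 : ℝ) : ℂ) ∧ l 3 4 = ((lg4 r 0 0 0 1 : ℝ) : ℂ) ∧ l 4 3 = ((lg4 r 0 0 0 1 : ℝ) : ℂ) ∧ l 3 5 = ((lg4 r 0 0 1 1 : ℝ) : ℂ) ∧ l 5 3 = ((lg4 r 0 0 1 1 : ℝ) : ℂ) ∧ l 4 4 = ((lg4 r 0 1 0 1 : ℝ) : ℂ) ∧ l 4 5 = ((lg4 r 0 1 1 1 : ℝ) : ℂ) ∧ l 5 4 = ((lg4 r 0 1 1 1 : ℝ) : ℂ) ∧ l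 5 5 = ((lg4 r 1 1 1 1 : ℝ) : ℂ) := by
  have c00 : ((r 0 0 : ℝ) : ℂ) = 1 := by rw [h00]; simp
  have e01 : l 0 1 = (r 0 1 : ℂ) := by
    have h := h1 0
    simp only [LOGJ_L, c00] at h
    linear_combination -h
  have e11 : l 1 1 = (r 1 1 : ℂ) - (r 1 0 : ℂ) * l 0 1 := by
    have h := h1 1
    simp only [LOGJ_L, c00] at h
    linear_combination -h
  have e21 : l 2 1 = (r 2 1 : ℂ) - (r 2 0 : ℂ) * l 0 1 := by
    have h := h1 2
    simp only [LOGJ_L, c00] at h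
    linear_combination -h
  have e31 : l 3 1 = (r 3 1 : ℂ) - (r 3 0 : ℂ) * l 0 1 - 2 * (r 1 0 : ℂ) * l 1 1 := by
    have h := h1 3
    simp only [LOGJ_L, c00] at h
    linear_combination -h
  have e41 : l 4 1 = (r 4 1 : ℂ) - (r 4 0 : ℂ) * l 0 1 - (r 2 0 : ℂ) * l 1 1 - (r 1 0 : ℂ) * l 2 1 := by
    have h := h1 4
    simp only [LOGJ_L, c00] at h
    linear_combination -h
  have e51 : l 5 1 = (r 5 1 : ℂ) - (r 5 0 : ℂ) * l 0 1 - 2 * (r 2 0 : ℂ) * l 2 1 := by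
    have h := h1 5
    simp only [LOGJ_L, c00] at h
    linear_combination -h
  have e02 : l 0 2 = (r 0 2 : ℂ) := by
    have h := h2 0
    simp only [LOGJ_L, c00] at h
    linear_combination -h
  have e12 : l 1 2 = (r 1 2 : ℂ) - (r 1 0 : ℂ) * l 0 2 := by
    have h := h2 1
    simp only [LOGJ_L, c00] at h
    linear_combination -h
  have e22 : l 2 2 = (r 2 2 : ℂ) - (r 2 0 : ℂ) * l 0 2 := by
    have h := h2 2
    simp only [LOGJ_L, c00] at h
    linear_combination -h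
  have e32 : l 3 2 = (r 3 2 : ℂ) - (r 3 0 : ℂ) * l 0 2 - 2 * (r 1 0 : ℂ) * l 1 2 := by
    have h := h2 3
    simp only [LOGJ_L, c00] at h
    linear_combination -h
  have e42 : l 4 2 = (r 4 2 : ℂ) - (r 4 0 : ℂ) * l 0 2 - (r 2 0 : ℂ) * l 1 2 - (r 1 0 : ℂ) * l 2 2 := by
    have h := h2 4
    simp only [LOGJ_L, c00] at h
    linear_combination -h
  have e52 : l 5 2 = (r 5 2 : ℂ) - (r 5 0 : ℂ) * l 0 2 - 2 * (r 2 0 : ℂ) * l 2 2 := by
    have h := h2 5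
    simp only [LOGJ_L, c00] at h
    linear_combination -h
  have e03 : l 0 3 = (r 0 3 : ℂ) - (r 0 1 : ℂ) * l 0 1 := by
    have h := h3 0
    simp only [LOGJ_L, c00] at h
    linear_combination -h
  have e13 : l 1 3 = (r 1 3 : ℂ) - (r 1 1 : ℂ) * l 0 1 - (r 0 1 : ℂ) * l 1 1 - (r 1 0 : ℂ) * l 0 3 := by
    have h := h3 1
    simp only [LOGJ_L, c00] at h
    linear_combination -h
  have e23 : l 2 3 = (r 2 3 : ℂ) - (r 2 1 : ℂ) * l 0 1 - (r 0 1 : ℂ) * l 2 1 - (r 2 0 : ℂ) * l 0 3 := by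
    have h := h3 2
    simp only [LOGJ_L, c00] at h
    linear_combination -h
  have e33 : l 3 3 = (r 3 3 : ℂ) - (r 3 1 : ℂ) * l 0 1 - 2 * (r 1 1 : ℂ) * l 1 1 - (r 0 1 : ℂ) * l 3 1 - (r 3 0 : ℂ) * l 0 3 - 2 * (r 1 0 : ℂ) * l 1 3 := by
    have h := h3 3
    simp only [LOGJ_L, c00] at h
    linear_combination -h
  have e43 : l 4 3 = (r 4 3 : ℂ) - (r 4 1 : ℂ) * l 0 1 - (r 2 1 : ℂ) * l 1 1 - (r 1 1 : ℂ) * l 2 1 - (r 0 1 : ℂ) * l 4 1 - (r 4 0 : ℂ) * l 0 3 - (r 2 0 : ℂ) * l 1 3 - (r 1 0 : ℂ) * l 2 3 := by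
    have h := h3 4
    simp only [LOGJ_L, c00] at h
    linear_combination -h
  have e53 : l 5 3 = (r 5 3 : ℂ) - (r 5 1 : ℂ) * l 0 1 - 2 * (r 2 1 : ℂ) * l 2 1 - (r 0 1 : ℂ) * l 5 1 - (r 5 0 : ℂ) * l 0 3 - 2 * (r 2 0 : ℂ) * l 2 3 := by
    have h := h3 5
    simp only [LOGJ_L, c00] at h
    linear_combination -h
  have e04 : l 0 4 = (r 0 4 : ℂ) - (r 0 1 : ℂ) * l 0 2 := by
    have h := h4 0
    simp only [LOGJ_L, c00] at h
    linear_combination -h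
  have e14 : l 1 4 = (r 1 4 : ℂ) - (r 1 1 : ℂ) * l 0 2 - (r 0 1 : ℂ) * l 1 2 - (r 1 0 : ℂ) * l 0 4 := by
    have h := h4 1
    simp only [LOGJ_L, c00] at h
    linear_combination -h
  have e24 : l 2 4 = (r 2 4 : ℂ) - (r 2 1 : ℂ) * l 0 2 - (r 0 1 : ℂ) * l 2 2 - (r 2 0 : ℂ) * l 0 4 := by
    have h := h4 2
    simp only [LOGJ_L, c00] at h
    linear_combination -h
  have e34 : l 3 4 = (r 3 4 : ℂ) - (r 3 1 : ℂ) * l 0 2 - 2 * (r 1 1 : ℂ) * l 1 2 - (r 0 1 : ℂ) * l 3 2 - (r 3 0 : ℂ) * l 0 4 - 2 * (r 1 0 : ℂ) * l 1 4 := by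
    have h := h4 3
    simp only [LOGJ_L, c00] at h
    linear_combination -h
  have e44 : l 4 4 = (r 4 4 : ℂ) - (r 4 1 : ℂ) * l 0 2 - (r 2 1 : ℂ) * l 1 2 - (r 1 1 : ℂ) * l 2 2 - (r 0 1 : ℂ) * l 4 2 - (r 4 0 : ℂ) * l 0 4 - (r 2 0 : ℂ) * l 1 4 - (r 1 0 : ℂ) * l 2 4 := by
    have h := h4 4
    simp only [LOGJ_L, c00] at h
    linear_combination -h
  have e54 : l 5 4 = (r 5 4 : ℂ) - (r 5 1 : ℂ) * l 0 2 - 2 * (r 2 1 : ℂ) * l 2 2 - (r 0 1 : ℂ) * l 5 2 - (r 5 0 : ℂ) * l 0 4 - 2 * (r 2 0 : ℂ) * l 2 4 := by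
    have h := h4 5
    simp only [LOGJ_L, c00] at h
    linear_combination -h
  have e05 : l 0 5 = (r 0 5 : ℂ) - (r 0 2 : ℂ) * l 0 2 := by
    have h := h5 0
    simp only [LOGJ_L, c00] at h
    linear_combination -h
  have e15 : l 1 5 = (r 1 5 : ℂ) - (r 1 2 : ℂ) * l 0 2 - (r 0 2 : ℂ) * l 1 2 - (r 1 0 : ℂ) * l 0 5 := by
    have h := h5 1
    simp only [LOGJ_L, c00] at h
    linear_combination -h
  have e25 : l 2 5 = (r 2 5 : ℂ) - (r 2 2 : ℂ) * l 0 2 - (r 0 2 : ℂ) * l 2 2 - (r 2 0 : ℂ) * l 0 5 := by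
    have h := h5 2
    simp only [LOGJ_L, c00] at h
    linear_combination -h
  have e35 : l 3 5 = (r 3 5 : ℂ) - (r 3 2 : ℂ) * l 0 2 - 2 * (r 1 2 : ℂ) * l 1 2 - (r 0 2 : ℂ) * l 3 2 - (r 3 0 : ℂ) * l 0 5 - 2 * (r 1 0 : ℂ) * l 1 5 := by
    have h := h5 3
    simp only [LOGJ_L, c00] at h
    linear_combination -h
  have e45 : l 4 5 = (r 4 5 : ℂ) - (r 4 2 : ℂ) * l 0 2 - (r 2 2 : ℂ) * l 1 2 - (r 1 2 : ℂ) * l 2 2 - (r 0 2 : ℂ) * l 4 2 - (r 4 0 : ℂ) * l 0 5 - (r 2 0 : ℂ) * l 1 5 - (r 1 0 : ℂ) * l 2 5 := by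
    have h := h5 4
    simp only [LOGJ_L, c00] at h
    linear_combination -h
  have e55 : l 5 5 = (r 5 5 : ℂ) - (r 5 2 : ℂ) * l 0 2 - 2 * (r 2 2 : ℂ) * l 2 2 - (r 0 2 : ℂ) * l 5 2 - (r 5 0 : ℂ) * l 0 5 - 2 * (r 2 0 : ℂ) * l 2 5 := by
    have h := h5 5
    simp only [LOGJ_L, c00] at h
    linear_combination -h
  have s10 : r 1 0 = r 0 1 := hs 1 0
  have s20 : r 2 0 = r 0 2 := hs 2 0
  have s21 : r 2 1 = r 1 2 := hs 2 1
  have s30 : r 3 0 = r 0 3 := hs 3 0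
  have s31 : r 3 1 = r 1 3 := hs 3 1
  have s32 : r 3 2 = r 2 3 := hs 3 2
  have s40 : r 4 0 = r 0 4 := hs 4 0
  have s41 : r 4 1 = r 1 4 := hs 4 1
  have s42 : r 4 2 = r 2 4 := hs 4 2
  have s43 : r 4 3 = r 3 4 := hs 4 3
  have s50 : r 5 0 = r 0 5 := hs 5 0
  have s51 : r 5 1 = r 1 5 := hs 5 1
  have s52 : r 5 2 = r 2 5 := hs 5 2
  have s53 : r 5 3 = r 3 5 := hs 5 3
  have s54 : r 5 4 = r 4 5 := hs 5 4
  refine ⟨?_, ?_, ?_, ?_, ?_, ?_, ?_, ?_, ?_, ?_, ?_, ?_, ?_, ?_, ?_, ?_, ?_, ?_, ?_⟩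
  · simp only [lg2, i1, i2, if_true, if_false, Fin.isValue, one_ne_zero, if_neg, ite_true, ite_false, e01, e11, e21, e31, e41, e51, e02, e12, e22, e32, e42, e52, e03, e13, e23, e33, e43, e53, e04, e14, e24, e34, e44, e54, e05, e15, e25, e35, e45, e55]
    simp only [s10, s20, s21, s30, s31, s32, s40, s41, s42, s43, s50, s51, s52, s53, s54]
    push_cast
    ring
  · simp only [lg2, i1, i2, if_true, if_false, Fin.isValue, one_ne_zero, if_neg, ite_true, ite_false, e01, e11, e21, e31, e41, e51, e02, e12, e22, e32, e42, e52, e03, e13, e23, e33, e43, e53, e04, e14, e24, e34, e44, e54, e05, e15, e25, e35, e45, e55]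
    simp only [s10, s20, s21, s30, s31, s32, s40, s41, s42, s43, s50, s51, s52, s53, s54]
    push_cast
    ring
  · simp only [lg2, i1, i2, if_true, if_false, Fin.isValue, one_ne_zero, if_neg, ite_true, ite_false, e01, e11, e21, e31, e41, e51, e02, e12, e22, e32, e42, e52, e03, e13, e23, e33, e43, e53, e04, e14, e24, e34, e44, e54, e05, e15, e25, e35, e45, e55]
    simp only [s10, s20, s21, s30, s31, s32, s40, s41, s42, s43, s50, s51, s52, s53, s54]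
    push_cast
    ring
  · simp only [lg2, i1, i2, if_true, if_false, Fin.isValue, one_ne_zero, if_neg, ite_true, ite_false, e01, e11, e21, e31, e41, e51, e02, e12, e22, e32, e42, e52, e03, e13, e23, e33, e43, e53, e04, e14, e24, e34, e44, e54, e05, e15, e25, e35, e45, e55]
    simp only [s10, s20, s21, s30, s31, s32, s40, s41, s42, s43, s50, s51, s52, s53, s54]
    push_cast
    ring
  · simp only [lg3, i1, i2, if_true, if_false, Fin.isValue, one_ne_zero, if_neg, ite_true, ite_false, e01, e11, e21, e31, e41, e51, e02, e12, e22, e32, e42, e52, e03, e13, e23, e33, e43, e53, e04, e14, e24, e34, e44, e54, e05, e15, e25, e35, e45, e55]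
    simp only [s10, s20, s21, s30, s31, s32, s40, s41, s42, s43, s50, s51, s52, s53, s54]
    push_cast
    ring
  · simp only [lg3, i1, i2, if_true, if_false, Fin.isValue, one_ne_zero, if_neg, ite_true, ite_false, e01, e11, e21, e31, e41, e51, e02, e12, e22, e32, e42, e52, e03, e13, e23, e33, e43, e53, e04, e14, e24, e34, e44, e54, e05, e15, e25, e35, e45, e55]
    simp only [s10, s20, s21, s30, s31, s32, s40, s41, s42, s43, s50, s51, s52, s53, s54]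
    push_cast
    ring
  · simp only [lg3, i1, i2, if_true, if_false, Fin.isValue, one_ne_zero, if_neg, ite_true, ite_false, e01, e11, e21, e31, e41, e51, e02, e12, e22, e32, e42, e52, e03, e13, e23, e33, e43, e53, e04, e14, e24, e34, e44, e54, e05, e15, e25, e35, e45, e55]
    simp only [s10, s20, s21, s30, s31, s32, s40, s41, s42, s43, s50, s51, s52, s53, s54]
    push_cast
    ring
  · simp only [lg3, i1, i2, if_true, if_false, Fin.isValue, one_ne_zero, if_neg, ite_true, ite_false, e01, e11, e21, e31, e41, e51, e02, e12, e22, e32, e42, e52, e03, e13, e23, e33, e43, e53, e04, e14, e24, e34, e44, e54, e05, e15, e25, e35, e45, e55]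
    simp only [s10, s20, s21, s30, s31, s32, s40, s41, s42, s43, s50, s51, s52, s53, s54]
    push_cast
    ring
  · simp only [lg3, i1, i2, if_true, if_false, Fin.isValue, one_ne_zero, if_neg, ite_true, ite_false, e01, e11, e21, e31, e41, e51, e02, e12, e22, e32, e42, e52, e03, e13, e23, e33, e43, e53, e04, e14, e24, e34, e44, e54, e05, e15, e25, e35, e45, e55]
    simp only [s10, s20, s21, s30, s31, s32, s40, s41, s42, s43, s50, s51, s52, s53, s54]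
    push_cast
    ring
  · simp only [lg3, i1, i2, if_true, if_false, Fin.isValue, one_ne_zero, if_neg, ite_true, ite_false, e01, e11, e21, e31, e41, e51, e02, e12, e22, e32, e42, e52, e03, e13, e23, e33, e43, e53, e04, e14, e24, e34, e44, e54, e05, e15, e25, e35, e45, e55]
    simp only [s10, s20, s21, s30, s31, s32, s40, s41, s42, s43, s50, s51, s52, s53, s54]
    push_cast
    ring
  · simp only [lg4, i1, i2, if_true, if_false, Fin.isValue, one_ne_zero, if_neg, ite_true, ite_false, e01, e11, e21, e31, e41, e51, e02, e12, e22, e32, e42, e52, e03, e13, e23, e33, e43, e53, e04, e14, e24, e34, e44, e54, e05, e15, e25, e35, e45, e55]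
    simp only [s10, s20, s21, s30, s31, s32, s40, s41, s42, s43, s50, s51, s52, s53, s54]
    push_cast
    ring
  · simp only [lg4, i1, i2, if_true, if_false, Fin.isValue, one_ne_zero, if_neg, ite_true, ite_false, e01, e11, e21, e31, e41, e51, e02, e12, e22, e32, e42, e52, e03, e13, e23, e33, e43, e53, e04, e14, e24, e34, e44, e54, e05, e15, e25, e35, e45, e55]
    simp only [s10, s20, s21, s30, s31, s32, s40, s41, s42, s43, s50, s51, s52, s53, s54]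
    push_cast
    ring
  · simp only [lg4, i1, i2, if_true, if_false, Fin.isValue, one_ne_zero, if_neg, ite_true, ite_false, e01, e11, e21, e31, e41, e51, e02, e12, e22, e32, e42, e52, e03, e13, e23, e33, e43, e53, e04, e14, e24, e34, e44, e54, e05, e15, e25, e35, e45, e55]
    simp only [s10, s20, s21, s30, s31, s32, s40, s41, s42, s43, s50, s51, s52, s53, s54]
    push_cast
    ring
  · simp only [lg4, i1, i2, if_true, if_false, Fin.isValue, one_ne_zero, if_neg, ite_true, ite_false, e01, e11, e21, e31, e41, e51, e02, e12, e22, e32, e42, e52, e03, e13, e23, e33, e43, e53, e04, e14, e24, e34, e44, e54, e05, e15, e25, e35, e45, e55]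
    simp only [s10, s20, s21, s30, s31, s32, s40, s41, s42, s43, s50, s51, s52, s53, s54]
    push_cast
    ring
  · simp only [lg4, i1, i2, if_true, if_false, Fin.isValue, one_ne_zero, if_neg, ite_true, ite_false, e01, e11, e21, e31, e41, e51, e02, e12, e22, e32, e42, e52, e03, e13, e23, e33, e43, e53, e04, e14, e24, e34, e44, e54, e05, e15, e25, e35, e45, e55]
    simp only [s10, s20, s21, s30, s31, s32, s40, s41, s42, s43, s50, s51, s52, s53, s54]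
    push_cast
    ring
  · simp only [lg4, i1, i2, if_true, if_false, Fin.isValue, one_ne_zero, if_neg, ite_true, ite_false, e01, e11, e21, e31, e41, e51, e02, e12, e22, e32, e42, e52, e03, e13, e23, e33, e43, e53, e04, e14, e24, e34, e44, e54, e05, e15, e25, e35, e45, e55]
    simp only [s10, s20, s21, s30, s31, s32, s40, s41, s42, s43, s50, s51, s52, s53, s54]
    push_cast
    ring
  · simp only [lg4, i1, i2, if_true, if_false, Fin.isValue, one_ne_zero, if_neg, ite_true, ite_false, e01, e11, e21, e31, e41, e51, e02, e12, e22, e32, e42, e52, e03, e13, e23, e33, e43, e53, e04, e14, e24, e34, e44, e54, e05, e15, e25, e35, e45, e55]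
    simp only [s10, s20, s21, s30, s31, s32, s40, s41, s42, s43, s50, s51, s52, s53, s54]
    push_cast
    ring
  · simp only [lg4, i1, i2, if_true, if_false, Fin.isValue, one_ne_zero, if_neg, ite_true, ite_false, e01, e11, e21, e31, e41, e51, e02, e12, e22, e32, e42, e52, e03, e13, e23, e33, e43, e53, e04, e14, e24, e34, e44, e54, e05, e15, e25, e35, e45, e55]
    simp only [s10, s20, s21, s30, s31, s32, s40, s41, s42, s43, s50, s51, s52, s53, s54]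
    push_cast
    ring
  · simp only [lg4, i1, i2, if_true, if_false, Fin.isValue, one_ne_zero, if_neg, ite_true, ite_false, e01, e11, e21, e31, e41, e51, e02, e12, e22, e32, e42, e52, e03, e13, e23, e33, e43, e53, e04, e14, e24, e34, e44, e54, e05, e15, e25, e35, e45, e55]
    simp only [s10, s20, s21, s30, s31, s32, s40, s41, s42, s43, s50, s51, s52, s53, s54]
    push_cast
    ring

theorem LOGJ_rel2 {U : Set E} (hU : IsOpen U) (v w : E) {u : E → ℝ}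
    (hpos : ∀ q ∈ U, 0 < u q) (hf : ContDiffOn ℝ ∞ (toC u) U)
    (hL : ContDiffOn ℝ ∞ (toC (fun q => Real.log (u q))) U) :
    ∀ q ∈ U, LOGJ_D I v (LOGJ_D I w (toC u)) q
      = LOGJ_D I v (toC u) q * LOGJ_D I w (toC (fun q => Real.log (u q))) q
        + toC u q * LOGJ_D I v (LOGJ_D I w (toC (fun q => Real.log (u q)))) q := by
  intro q hq
  rw [LOGJ_congr hU I v (g := fun x => toC u x * LOGJ_D I w (toC (fun q => Real.log (u q))) x)
    (LOGJ_log hU I w hpos hL) q hq]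
  exact LOGJ_mul1 I v (LOGJ_diffAt hU hf hq) (LOGJ_diffAt hU (LOGJ_smooth hU I w hL) hq)

theorem LOGJ_L_smul (K : Fin 6) (c : ℂ) (a b : Fin 6 → ℂ) :
    LOGJ_L K (fun J => c * a J) b = c * LOGJ_L K a b := by
  match K with
  | 0 => simp only [LOGJ_L]; ring
  | 1 => simp only [LOGJ_L]; ring
  | 2 => simp only [LOGJ_L]; ring
  | 3 => simp only [LOGJ_L]; ring
  | 4 => simp only [LOGJ_L]; ring
  | 5 => simp only [LOGJ_L]; ring

theorem st_LOGJ : ST_LOGJ := by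
  intro u U hU hu hpos p hp m hsym hjet
  have hf : ContDiffOn ℝ ∞ (toC u) U := Complex.ofRealCLM.contDiff.comp_contDiffOn hu
  have hlog : ContDiffOn ℝ ∞ (fun q => Real.log (u q)) U := hu.log (fun q hq => (hpos q hq).ne')
  have hL : ContDiffOn ℝ ∞ (toC (fun q => Real.log (u q))) U :=
    Complex.ofRealCLM.contDiff.comp_contDiffOn hlog
  set L : E → ℂ := toC (fun q => Real.log (u q)) with hLdef
  have m00 : m 0 0 = u p := by
    have h := hjet 0 0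
    have h' : ((u p : ℝ) : ℂ) = ((m 0 0 : ℝ) : ℂ) := h
    exact_mod_cast h'.symm
  have hm0 : m 0 0 ≠ 0 := by rw [m00]; exact (hpos p hp).ne'
  have hc0 : ((m 0 0 : ℝ) : ℂ) ≠ 0 := by exact_mod_cast hm0
  -- the relations of the jets
  have k0 : ∀ J, dI J (toC u) p = (m J 0 : ℂ) := fun J => hjet J 0
  have j1 : ∀ q ∈ U, dJ 1 (toC u) q = (fun x => toC u x * dJ 1 L x) q := fun q hq =>
    LOGJ_log hU I (1, 0) hpos hL q hq
  have j2 : ∀ q ∈ U, dJ 2 (toC u) q = (fun x => toC u x * dJ 2 L x) q := fun q hq =>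
    LOGJ_log hU I (0, 1) hpos hL q hq
  have j3 : ∀ q ∈ U, dJ 3 (toC u) q
      = (fun x => dJ 1 (toC u) x * dJ 1 L x + toC u x * dJ 3 L x) q := fun q hq =>
    LOGJ_rel2 hU (1, 0) (1, 0) hpos hf hL q hq
  have j4 : ∀ q ∈ U, dJ 4 (toC u) q
      = (fun x => dJ 1 (toC u) x * dJ 2 L x + toC u x * dJ 4 L x) q := fun q hq =>
    LOGJ_rel2 hU (1, 0) (0, 1) hpos hf hL q hq
  have j5 : ∀ q ∈ U, dJ 5 (toC u) q
      = (fun x => dJ 2 (toC u) x * dJ 2 L x + toC u x * dJ 5 L x) q := fun q hq =>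
    LOGJ_rel2 hU (0, 1) (0, 1) hpos hf hL q hq
  have sf := fun K => LOGJ_dJ_smooth hU hf K
  have sL := fun K => LOGJ_dJ_smooth hU hL K
  have two : ∀ (J a b : Fin 6), (∀ q ∈ U, dJ J (toC u) q
      = (fun x => dJ a (toC u) x * dJ b L x + toC u x * dJ J L x) q) → ∀ K, (m K J : ℂ) =
      LOGJ_L K (fun J' => (m J' a : ℂ)) (fun J' => dI J' (dJ b L) p)
      + LOGJ_L K (fun J' => (m J' 0 : ℂ)) (fun J' => dI J' (dJ J L) p) := by
    intro J a b h K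
    have h1 : dI K (dJ J (toC u)) p = (m K J : ℂ) := hjet K J
    rw [← h1, LOGJ_dI_congr hU h hp K,
      LOGJ_dI_add hU (f := fun x => dJ a (toC u) x * dJ b L x)
        (g := fun x => toC u x * dJ J L x) ((sf a).mul (sL b)) (hf.mul (sL J)) hp K,
      LOGJ_dI_mul hU (sf a) (sL b) hp K, LOGJ_dI_mul hU hf (sL J) hp K]
    have h2 : (fun J' => dI J' (dJ a (toC u)) p) = fun J' => (m J' a : ℂ) :=
      funext fun J' => hjet J' a
    have h3 : (fun J' => dI J' (toC u) p) = fun J' => (m J' 0 : ℂ) := funext k0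
    rw [h2, h3]
  have one : ∀ (J : Fin 6), (∀ q ∈ U, dJ J (toC u) q
      = (fun x => toC u x * dJ J L x) q) → ∀ K, (m K J : ℂ) =
      LOGJ_L K (fun J' => (m J' 0 : ℂ)) (fun J' => dI J' (dJ J L) p) := by
    intro J h K
    have h1 : dI K (dJ J (toC u)) p = (m K J : ℂ) := hjet K J
    rw [← h1, LOGJ_dI_congr hU h hp K, LOGJ_dI_mul hU hf (sL J) hp K]
    have h3 : (fun J' => dI J' (toC u) p) = fun J' => (m J' 0 : ℂ) := funext k0
    rw [h3]
  have nrm : ∀ K J, (((m K J / m 0 0 : ℝ)) : ℂ) = ((m 0 0 : ℝ) : ℂ)⁻¹ * (m K J : ℂ) := by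
    intro K J
    push_cast
    rw [div_eq_inv_mul]
  have key := LOGJ_alg (fun K J => m K J / m 0 0) (fun K J => dI K (dJ J L) p)
    (div_self hm0) (fun K J => by simp only [hsym K J])
    (fun K => by
      simp only [nrm]
      rw [LOGJ_L_smul, one 1 j1 K])
    (fun K => by
      simp only [nrm]
      rw [LOGJ_L_smul, one 2 j2 K])
    (fun K => by
      simp only [nrm]
      rw [LOGJ_L_smul, LOGJ_L_smul, two 3 1 1 j3 K, mul_add])
    (fun K => by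
      simp only [nrm]
      rw [LOGJ_L_smul, LOGJ_L_smul, two 4 1 2 j4 K, mul_add])
    (fun K => by
      simp only [nrm]
      rw [LOGJ_L_smul, LOGJ_L_smul, two 5 2 2 j5 K, mul_add])
  exact key

end RicP
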