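import Pool.Agent.Helper88.Ric.Stmts

set_option autoImplicit false

open scoped ContDiff Topology
open Complex

noncomputable section

namespace RicP

/-- common form of `dz` and `dzb` -/
def ROT_D (s : ℂ) (v : E) (f : E → ℂ) (p : E) : ℂ :=
  (fderiv ℝ f p v + s * fderiv ℝ f p (I • v)) / 2

theorem ROT_dz (v : E) (f : E → ℂ) : dz v f = ROT_D (-I) v f := by
  funext p
  simp only [dz, ROT_D]
  ring

theorem ROT_dzb (v : E) (f : E → ℂ) : dzb v f = ROT_D I v f := rfl

theorem ROT_unit (z : ℂ) : ∃ u : ℂ, ‖u‖ = 1 ∧ u * z = ((‖z‖ : ℝ) : ℂ) := by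
  by_cases hz : z = 0
  · exact ⟨1, by simp, by simp [hz]⟩
  · have hn : ‖z‖ ≠ 0 := norm_ne_zero_iff.mpr hz
    have hc : ((‖z‖ : ℝ) : ℂ) ≠ 0 := by exact_mod_cast hn
    refine ⟨((‖z‖ : ℝ) : ℂ) / z, ?_, by field_simp⟩
    rw [norm_div, Complex.norm_real, norm_norm, div_self hn]

/-- the rotation as a real linear map -/
def ROT_map (u v : ℂ) : E →L[ℝ] E :=
  (u • ContinuousLinearMap.fst ℝ ℂ ℂ).prod (v • ContinuousLinearMap.snd ℝ ℂ ℂ)

theorem ROT_map_apply (u v : ℂ) (x : E) : ROT_map u v x = (u * x.1, v * x.2) := rfl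

/-- the rotation as an equivalence -/
def ROT_equiv (u v : ℂ) (hu : u ≠ 0) (hv : v ≠ 0) : E ≃L[ℝ] E :=
  ContinuousLinearEquiv.equivOfInverse (ROT_map u v) (ROT_map u⁻¹ v⁻¹)
    (fun x => by
      simp only [ROT_map_apply]
      ext
      · simp [hu]
      · simp [hv])
    (fun x => by
      simp only [ROT_map_apply]
      ext
      · simp [hu]
      · simp [hv])

theorem ROT_equiv_apply (u v : ℂ) (hu : u ≠ 0) (hv : v ≠ 0) (x : E) :
    ROT_equiv u v hu hv x = (u * x.1, v * x.2) := rfl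

theorem ROT_step {U : Set E} (hU : IsOpen U) (R : E ≃L[ℝ] E) (hR : ∀ w : E, R (I • w) = I • R w)
    (s : ℂ) (w : E) {f g : E → ℂ} (h : ∀ q ∈ U, f q = g (R q)) :
    ∀ q ∈ U, ROT_D s w f q = ROT_D s (R w) g (R q) := by
  intro q hq
  have h1 : f =ᶠ[𝓝 q] (g ∘ R) := by
    filter_upwards [hU.mem_nhds hq] with x hx using h x hx
  have h2 : fderiv ℝ f q = (fderiv ℝ g (R q)).comp (R : E →L[ℝ] E) := by
    rw [h1.fderiv_eq]
    exact ContinuousLinearEquiv.comp_right_fderiv R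
  simp only [ROT_D, h2, ContinuousLinearMap.comp_apply, ContinuousLinearEquiv.coe_coe, hR]

theorem st_ROT : ST_ROT := by
  intro φ U hU _hφ hrot p hp hgood
  obtain ⟨u, hu, hu1⟩ := ROT_unit p.1
  obtain ⟨v, hv, hv1⟩ := ROT_unit p.2
  have hu0 : u ≠ 0 := by
    intro h
    rw [h] at hu
    simp at hu
  have hv0 : v ≠ 0 := by
    intro h
    rw [h] at hv
    simp at hv
  let R : E ≃L[ℝ] E := ROT_equiv u v hu0 hv0
  have hRa : ∀ x : E, R x = (u * x.1, v * x.2) := fun x => rfl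
  have hRI : ∀ w : E, R (I • w) = I • R w := by
    intro w
    rw [hRa, hRa]
    ext
    · simp only [Prod.smul_fst, smul_eq_mul]; ring
    · simp only [Prod.smul_snd, smul_eq_mul]; ring
  have hRp : R p = (((‖p.1‖ : ℝ) : ℂ), ((‖p.2‖ : ℝ) : ℂ)) := by
    rw [hRa, hu1, hv1]
  have h0 : ∀ q ∈ U, toC φ q = toC φ (R q) := by
    intro q hq
    simp only [toC]
    rw [hRa, (hrot u v hu hv q hq).2]
  have hlevi : ∀ a b : E, levi φ p a b = levi φ (R p) (R a) (R b) := by
    intro a b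
    simp only [levi, ROT_dz, ROT_dzb]
    exact ROT_step hU R hRI _ a (ROT_step hU R hRI _ b h0) p hp
  have hbis : ∀ a b : E, orthBisec φ p a b = orthBisec φ (R p) (R a) (R b) := by
    intro a b
    have e1 : dz a (dzb a (dz b (dzb b (toC φ)))) p
        = dz (R a) (dzb (R a) (dz (R b) (dzb (R b) (toC φ)))) (R p) := by
      simp only [ROT_dz, ROT_dzb]
      exact ROT_step hU R hRI _ a (ROT_step hU R hRI _ a (ROT_step hU R hRI _ b
        (ROT_step hU R hRI _ b h0))) p hp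
    have e2 : ∀ c : E, dz a (dz b (dzb c (toC φ))) p
        = dz (R a) (dz (R b) (dzb (R c) (toC φ))) (R p) := by
      intro c
      simp only [ROT_dz, ROT_dzb]
      exact ROT_step hU R hRI _ a (ROT_step hU R hRI _ b (ROT_step hU R hRI _ c h0)) p hp
    simp only [orthBisec, e1, e2]
  have hg := hgood (R p) (by rw [hRp]; exact Set.mem_singleton _)
  intro p' hp'
  have hpp : p' = p := hp'
  rw [hpp]
  refine ⟨fun w hw => ?_, fun e₁ e₂ hfr => ?_⟩
  · rw [hlevi]
    exact hg.1 (R w) (fun h => hw (by simpa using h))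
  · rw [hbis]
    refine hg.2 (R e₁) (R e₂) ⟨?_, ?_, ?_⟩
    · rw [← hlevi]; exact hfr.1
    · rw [← hlevi]; exact hfr.2.1
    · rw [← hlevi]; exact hfr.2.2

end RicP
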